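import Pool.Agent.Results.MP_869812_nt.ConjOddMaps
import Pool.Agent.U513.AP.RatHeight

/-!
# Preperiodic points of the maps conjugate to `b x + c / x` for the rational approximations `b` of a real number

The starting file bounds the number of the rational `b` of height at most `H` for which some rational map of degree two conjugate over
`ℚ` to `b x + c / x`, `c ≠ 0`, has more than six rational preperiodic points. Here: for all real `α` outside of a set of Hausdorff
dimension at most `3 / (2 τ)`, there are no such `b` among the rational numbers with `|α - b| ≤ den(b) ^ (-τ)`, up to finitely many.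
-/

set_option autoImplicit false

open Finset MeasureTheory

namespace Pool.Agent.Results.MP_869812_nt.Approximations

open Pool.Agent.U513.AP
open Pool.Agent.Results.MP_869812_nt.ConjOddMaps (Good Box)

/-- For every `τ > 0` there is a set `E` of Hausdorff dimension at most `3 / (2 τ)` (of measure zero if `τ > 3 / 2`) such that for all
real `α` outside of `E` all but finitely many rational `b ≠ 0` with `|α - b| ≤ den(b) ^ (-τ)` are good. -/
theorem result (τ : ℝ) (hτ : 0 < τ) :
    ∃ E : Set ℝ, dimH E ≤ ENNReal.ofReal (3 / 2 / τ) ∧ (3 / 2 < τ → volume E = 0) ∧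
      ∀ α : ℝ, α ∉ E → {b : ℚ | (b ≠ 0 ∧ ¬ Good b) ∧ |α - b| ≤ (b.den : ℝ) ^ (-τ)}.Finite := by
  classical
  refine rat_law_height (B := {b : ℚ | b ≠ 0 ∧ ¬ Good b}) (by norm_num) (fun ε hε => ?_) hτ
  obtain ⟨K, hK⟩ := ConjOddMaps.result.2.1
  refine ⟨max K 0, fun H hH => ?_⟩
  have hH1 : (1 : ℝ) ≤ H := by exact_mod_cast hH
  have hfin : (Box H ∩ {b : ℚ | ¬ Good b}).Finite :=
    (finite_height H).subset fun b hb => hb.1.2
  have hsub : {b : ℚ | b ∈ {b : ℚ | b ≠ 0 ∧ ¬ Good b} ∧ b.num.natAbs ≤ H ∧ b.den ≤ H} ⊆ Box H ∩ {b : ℚ | ¬ Good b} :=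
    fun b hb => ⟨⟨hb.1.1, hb.2.1, hb.2.2⟩, hb.1.2⟩
  refine (Nat.cast_le.2 (Set.ncard_le_ncard hsub hfin)).trans ((hK H).trans ?_)
  exact mul_le_mul (le_max_left _ _) (Real.rpow_le_rpow_of_exponent_le hH1 (by linarith)) (by positivity)
    (le_max_right _ _)

end Pool.Agent.Results.MP_869812_nt.Approximations
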